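import Mathlib

set_option autoImplicit false

namespace Pool.Agent.Results.MP_c4013e_an.NoPNormableSubspace

open scoped ENNReal NNReal

universe u v

section Defs

variable (𝕜 : Type u) [RCLike 𝕜] {X : Type v} [AddCommGroup X] [Module 𝕜 X]

/-- `N` is a quasi-norm on the `𝕜`-vector space `X` (`𝕜` is the real or the complex field):
the norm axioms, with the triangle inequality weakened to
`N (x + y) ≤ κ * (N x + N y)` for some constant `κ ≥ 1`. -/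
structure IsQuasiNorm (N : X → ℝ) : Prop where
  nonneg : ∀ x, 0 ≤ N x
  eq_zero_iff : ∀ x, N x = 0 ↔ x = 0
  smul : ∀ (c : 𝕜) (x : X), N (c • x) = ‖c‖ * N x
  add_le : ∃ κ : ℝ, 1 ≤ κ ∧ ∀ x y, N (x + y) ≤ κ * (N x + N y)

/-- For `0 < p ≤ 1`, a `p`-norm is a quasi-norm with
`N (x + y) ^ p ≤ N x ^ p + N y ^ p`. -/
structure IsPNorm (p : ℝ) (N : X → ℝ) : Prop where
  quasi : IsQuasiNorm 𝕜 N
  p_add : ∀ x y, N (x + y) ^ p ≤ N x ^ p + N y ^ p

/-- `X` is complete for `N`: every `N`-Cauchy sequence converges to some point of `X`. -/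
def IsCompleteFor (N : X → ℝ) : Prop :=
  ∀ s : ℕ → X, (∀ ε > 0, ∃ n₀, ∀ m ≥ n₀, ∀ n ≥ n₀, N (s m - s n) < ε) →
    ∃ x, ∀ ε > 0, ∃ n₀, ∀ n ≥ n₀, N (s n - x) < ε

/-- The dual norm of a linear functional `f`: the supremum of `‖f x‖` over the unit ball of `N`,
as an extended nonnegative real; `f` is continuous exactly when it is finite. -/
noncomputable def dualNorm (N : X → ℝ) (f : X →ₗ[𝕜] 𝕜) : ℝ≥0∞ :=
  ⨆ x : {x : X // N x ≤ 1}, ENNReal.ofReal ‖f x.1‖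

/-- `e` is a basis of `(X, N)` with coordinate functionals `e'`, in the sense of the problem:
the closed linear span of `e` is `X`, the `e' k` are continuous functionals biorthogonal to `e`,
`e` is bounded above and bounded away from `0`, and the `e' k` are uniformly bounded. -/
structure IsBasis (N : X → ℝ) (e : ℕ → X) (e' : ℕ → X →ₗ[𝕜] 𝕜) : Prop where
  dense_span : ∀ x : X, ∀ ε > 0, ∃ y ∈ Submodule.span 𝕜 (Set.range e), N (x - y) < ε
  biorthogonal : ∀ k n, e' k (e n) = if k = n then 1 else 0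
  bounded_below : ∃ c : ℝ, 0 < c ∧ ∀ n, c ≤ N (e n)
  bounded_above : ∃ C : ℝ, ∀ n, N (e n) ≤ C
  dual_bounded : ∃ C : ℝ≥0, ∀ n, dualNorm 𝕜 N (e' n) ≤ C

/-- The fundamental function `φ(m) = sup_{|A| ≤ m} N (∑_{n ∈ A} e n)`. -/
noncomputable def phi (N : X → ℝ) (e : ℕ → X) (m : ℕ) : ℝ≥0∞ :=
  ⨆ A : {A : Finset ℕ // A.card ≤ m}, ENNReal.ofReal (N (∑ n ∈ A.1, e n))

/-- The dual fundamental function `φ*(m) = sup_{|A| ≤ m} ‖∑_{n ∈ A} e' n‖`. -/
noncomputable def phiStar (N : X → ℝ) (e' : ℕ → X →ₗ[𝕜] 𝕜) (m : ℕ) : ℝ≥0∞ :=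
  ⨆ A : {A : Finset ℕ // A.card ≤ m}, dualNorm 𝕜 N (∑ n ∈ A.1, e' n)

/-- The basis is bidemocratic: `sup_{m ≥ 1} φ(m) φ*(m) / m < ∞`. -/
def IsBidemocratic (N : X → ℝ) (e : ℕ → X) (e' : ℕ → X →ₗ[𝕜] 𝕜) : Prop :=
  ∃ C : ℝ≥0, ∀ m : ℕ, 1 ≤ m → phi N e m * phiStar 𝕜 N e' m ≤ C * m

/-- The subspace `Y` has an equivalent `p`-norm. -/
def HasEquivalentPNorm (N : X → ℝ) (p : ℝ) (Y : Submodule 𝕜 X) : Prop :=
  ∃ P : Y → ℝ, IsPNorm 𝕜 p P ∧
    ∃ C : ℝ, 1 ≤ C ∧ ∀ y : Y, C⁻¹ * N (y : X) ≤ P y ∧ P y ≤ C * N (y : X)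

end Defs

section Construction

variable {𝕜 : Type u} [RCLike 𝕜]

/-- The weights `w k = (k+1)^r - k^r`. -/
noncomputable def wt (r : ℝ) (k : ℕ) : ℝ := ((k : ℝ) + 1) ^ r - (k : ℝ) ^ r

/-- `F r a n l = ∑ₖ w (n+k) * ‖a (l k)‖ ^ r`. -/
noncomputable def F (r : ℝ) (a : ℕ → 𝕜) : ℕ → List ℕ → ℝ
  | _, [] => 0
  | n, (x :: l) => wt r n * ‖a x‖ ^ r + F r a (n + 1) l

lemma concave_step {r : ℝ} (hr0 : 0 < r) (hr1 : r < 1) {n v : ℝ} (hn : 0 ≤ n) (hv : n ≤ v) :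
    (v + 1) ^ r - v ^ r ≤ (n + 1) ^ r - n ^ r := by
  have hc := Real.concaveOn_rpow hr0.le hr1.le
  rcases eq_or_lt_of_le hv with h | h
  · subst h; exact le_rfl
  have hd : 0 < v + 1 - n := by linarith
  set lam : ℝ := 1 / (v + 1 - n) with hlam
  have hl0 : 0 ≤ lam := by positivity
  have hl1 : lam ≤ 1 := by
    rw [hlam, div_le_one hd]; linarith
  have hlm : lam * (v + 1 - n) = 1 := by rw [hlam]; field_simp
  have hmn : n ∈ Set.Ici (0 : ℝ) := hn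
  have hmv : v + 1 ∈ Set.Ici (0 : ℝ) := by simp only [Set.mem_Ici]; linarith
  have hl2 : 0 ≤ 1 - lam := by linarith
  have h1 := hc.2 hmn hmv hl2 hl0 (by ring)
  have h2 := hc.2 hmn hmv hl0 hl2 (by ring)
  simp only [smul_eq_mul] at h1 h2
  have e1 : (1 - lam) * n + lam * (v + 1) = n + 1 := by nlinarith
  have e2 : lam * n + (1 - lam) * (v + 1) = v := by nlinarith
  rw [e1] at h1
  rw [e2] at h2
  nlinarith

lemma wt_antitone {r : ℝ} (hr0 : 0 < r) (hr1 : r < 1) {m n : ℕ} (h : m ≤ n) :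
    wt r n ≤ wt r m := by
  unfold wt
  exact concave_step hr0 hr1 (by positivity) (by exact_mod_cast h)

lemma wt_nonneg {r : ℝ} (hr0 : 0 < r) (n : ℕ) : 0 ≤ wt r n := by
  unfold wt
  have : (n : ℝ) ^ r ≤ ((n : ℝ) + 1) ^ r :=
    Real.rpow_le_rpow (by positivity) (by linarith) hr0.le
  linarith

lemma wt_zero {r : ℝ} (hr0 : 0 < r) : wt r 0 = 1 := by
  unfold wt
  simp [Real.zero_rpow hr0.ne']

lemma F_nonneg {r : ℝ} (hr0 : 0 < r) (a : ℕ → 𝕜) (n : ℕ) (l : List ℕ) : 0 ≤ F r a n l := by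
  induction l generalizing n with
  | nil => simp [F]
  | cons x l ih =>
    simp only [F]
    have := wt_nonneg hr0 n
    have := ih (n + 1)
    positivity

lemma F_append (r : ℝ) (a : ℕ → 𝕜) (n : ℕ) (l l' : List ℕ) :
    F r a n (l ++ l') = F r a n l + F r a (n + l.length) l' := by
  induction l generalizing n with
  | nil => simp [F]
  | cons x l ih =>
    simp only [List.cons_append, F, List.length_cons]
    rw [ih (n + 1)]
    have : n + 1 + l.length = n + (l.length + 1) := by ring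
    rw [this]; ring

lemma F_add_le {r : ℝ} (hr0 : 0 < r) (hr1 : r < 1) (a b : ℕ → 𝕜) (n : ℕ) (l : List ℕ) :
    F r (a + b) n l ≤ F r a n l + F r b n l := by
  induction l generalizing n with
  | nil => simp [F]
  | cons x l ih =>
    simp only [F, Pi.add_apply]
    have h1 := ih (n + 1)
    have h2 : ‖a x + b x‖ ^ r ≤ ‖a x‖ ^ r + ‖b x‖ ^ r :=
      (Real.rpow_le_rpow (norm_nonneg _) (norm_add_le _ _) hr0.le).trans
        (Real.rpow_add_le_add_rpow (norm_nonneg _) (norm_nonneg _) hr0.le hr1.le)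
    have h3 := mul_le_mul_of_nonneg_left h2 (wt_nonneg hr0 n)
    linarith

lemma F_smul {r : ℝ} (c : 𝕜) (a : ℕ → 𝕜) (n : ℕ) (l : List ℕ) :
    F r (c • a) n l = ‖c‖ ^ r * F r a n l := by
  induction l generalizing n with
  | nil => simp [F]
  | cons x l ih =>
    simp only [F, Pi.smul_apply, smul_eq_mul, norm_mul]
    rw [ih (n + 1), Real.mul_rpow (norm_nonneg _) (norm_nonneg _)]
    ring

lemma F_mono_shift {r : ℝ} (hr0 : 0 < r) (hr1 : r < 1) (a : ℕ → 𝕜) {m n : ℕ} (h : m ≤ n)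
    (l : List ℕ) : F r a n l ≤ F r a m l := by
  induction l generalizing m n with
  | nil => simp [F]
  | cons x l ih =>
    simp only [F]
    have h1 := ih (m := m + 1) (n := n + 1) (by omega)
    have h2 := mul_le_mul_of_nonneg_right (wt_antitone hr0 hr1 h)
      (Real.rpow_nonneg (norm_nonneg (a x)) r)
    linarith

lemma F_congr {r : ℝ} {a b : ℕ → 𝕜} (n : ℕ) {l : List ℕ} (h : ∀ x ∈ l, a x = b x) :
    F r a n l = F r b n l := by
  induction l generalizing n with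
  | nil => simp [F]
  | cons x l ih =>
    simp only [F]
    rw [h x (by simp), ih (n + 1) (fun y hy => h y (by simp [hy]))]

/-- removing indices at which the sequence vanishes only increases the sum. -/
lemma F_filter {r : ℝ} (hr0 : 0 < r) (hr1 : r < 1) (a : ℕ → 𝕜) (p : ℕ → Bool) (n : ℕ)
    {l : List ℕ} (h : ∀ x ∈ l, p x = false → a x = 0) :
    F r a n l ≤ F r a n (l.filter p) := by
  induction l generalizing n with
  | nil => simp [F]
  | cons x l ih =>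
    have ih' := fun n => ih n (fun y hy => h y (by simp [hy]))
    cases hp : p x with
    | true =>
      rw [List.filter_cons_of_pos hp]
      simp only [F]
      have := ih' (n + 1)
      linarith
    | false =>
      rw [List.filter_cons_of_neg (by simp [hp])]
      simp only [F]
      rw [h x (by simp) hp, norm_zero, Real.zero_rpow hr0.ne', mul_zero, zero_add]
      exact (ih' (n + 1)).trans (F_mono_shift hr0 hr1 a (Nat.le_succ n) _)

/-- the cost of shifting the weights by `K` for a flat sequence. -/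
lemma F_flat {r : ℝ} (hr0 : 0 < r) (hr1 : r < 1) (a : ℕ → 𝕜) (K : ℕ) {δ : ℝ}
    (n : ℕ) {l : List ℕ} (h : ∀ x ∈ l, ‖a x‖ ≤ δ) :
    F r a n l ≤ F r a (n + K) l + δ ^ r *
      (((n + l.length : ℕ) : ℝ) ^ r - (n : ℝ) ^ r
        - (((n + K + l.length : ℕ) : ℝ) ^ r - ((n + K : ℕ) : ℝ) ^ r)) := by
  induction l generalizing n with
  | nil => simp [F]
  | cons x l ih =>
    have ih' := ih (n + 1) (fun y hy => h y (by simp [hy]))
    simp only [F, List.length_cons]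
    have hx : ‖a x‖ ^ r ≤ δ ^ r :=
      Real.rpow_le_rpow (norm_nonneg _) (h x (by simp)) hr0.le
    have hw : 0 ≤ wt r n - wt r (n + K) := by
      have := wt_antitone hr0 hr1 (m := n) (n := n + K) (by omega)
      linarith
    have h1 := mul_le_mul_of_nonneg_left hx hw
    have e1 : n + 1 + K = n + K + 1 := by ring
    have e2 : n + 1 + l.length = n + (l.length + 1) := by ring
    have e3 : n + 1 + K + l.length = n + K + (l.length + 1) := by ring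
    rw [e3, e1, e2] at ih'
    have hw1 : wt r n = ((n + 1 : ℕ) : ℝ) ^ r - (n : ℝ) ^ r := by unfold wt; push_cast; rfl
    have hw2 : wt r (n + K) = ((n + K + 1 : ℕ) : ℝ) ^ r - ((n + K : ℕ) : ℝ) ^ r := by
      unfold wt; push_cast; rfl
    rw [hw1, hw2] at h1 ⊢
    nlinarith

lemma F_flat' {r : ℝ} (hr0 : 0 < r) (hr1 : r < 1) (a : ℕ → 𝕜) (K : ℕ) {δ : ℝ} (hδ : 0 ≤ δ)
    {l : List ℕ} (h : ∀ x ∈ l, ‖a x‖ ≤ δ) :
    F r a 0 l ≤ F r a K l + δ ^ r * (K : ℝ) ^ r := by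
  have h1 := F_flat hr0 hr1 a K 0 h
  have h2 : (((0 + l.length : ℕ) : ℝ) ^ r - ((0 : ℕ) : ℝ) ^ r
        - (((0 + K + l.length : ℕ) : ℝ) ^ r - ((0 + K : ℕ) : ℝ) ^ r)) ≤ (K : ℝ) ^ r := by
    have : ((0 + l.length : ℕ) : ℝ) ^ r ≤ ((0 + K + l.length : ℕ) : ℝ) ^ r := by
      apply Real.rpow_le_rpow (by positivity) _ hr0.le
      push_cast; linarith [Nat.cast_nonneg (α := ℝ) K]
    have h0 : 0 ≤ ((0 : ℕ) : ℝ) ^ r := by positivity
    have : ((0 + K : ℕ) : ℝ) = (K : ℝ) := by simp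
    rw [this]
    linarith
  have h3 := mul_le_mul_of_nonneg_left h2 (Real.rpow_nonneg hδ r)
  have h4 : 0 + K = K := by simp
  rw [h4] at h1 h3
  linarith

/-- lower bound: if all entries on `l` are at least `c`. -/
lemma F_lower {r : ℝ} (hr0 : 0 < r) (a : ℕ → 𝕜) {c : ℝ} (hc : 0 ≤ c) (n : ℕ) {l : List ℕ}
    (h : ∀ x ∈ l, c ≤ ‖a x‖) :
    c ^ r * (((n + l.length : ℕ) : ℝ) ^ r - (n : ℝ) ^ r) ≤ F r a n l := by
  induction l generalizing n with
  | nil => simp [F]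
  | cons x l ih =>
    have ih' := ih (n + 1) (fun y hy => h y (by simp [hy]))
    simp only [F, List.length_cons]
    have hx : c ^ r ≤ ‖a x‖ ^ r := Real.rpow_le_rpow hc (h x (by simp)) hr0.le
    have h1 := mul_le_mul_of_nonneg_left hx (wt_nonneg hr0 n)
    have e2 : n + 1 + l.length = n + (l.length + 1) := by ring
    rw [e2] at ih'
    have hw1 : wt r n = ((n + 1 : ℕ) : ℝ) ^ r - (n : ℝ) ^ r := by unfold wt; push_cast; rfl
    rw [hw1] at h1 ⊢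
    nlinarith

/-- upper bound for indicator-type sequences. -/
lemma F_indicator {r : ℝ} (hr0 : 0 < r) (hr1 : r < 1) (a : ℕ → 𝕜) (A : Finset ℕ)
    (h1 : ∀ x ∈ A, ‖a x‖ ≤ 1) (h0 : ∀ x, x ∉ A → a x = 0) (n : ℕ) (l : List ℕ) :
    F r a n l ≤ ((n + (l.filter (· ∈ A)).length : ℕ) : ℝ) ^ r - (n : ℝ) ^ r := by
  induction l generalizing n with
  | nil => simp [F]
  | cons x l ih =>
    have ih' := ih (n + 1)
    by_cases hx : x ∈ A
    · rw [List.filter_cons_of_pos (by simpa using hx)]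
      simp only [F, List.length_cons]
      have h2 : ‖a x‖ ^ r ≤ 1 := Real.rpow_le_one (norm_nonneg _) (h1 x hx) hr0.le
      have h3 := mul_le_mul_of_nonneg_left h2 (wt_nonneg hr0 n)
      have hw1 : wt r n = ((n + 1 : ℕ) : ℝ) ^ r - (n : ℝ) ^ r := by unfold wt; push_cast; rfl
      rw [hw1] at h3 ⊢
      have e2 : n + 1 + (l.filter (· ∈ A)).length = n + ((l.filter (· ∈ A)).length + 1) := by ring
      rw [e2] at ih'
      linarith
    · rw [List.filter_cons_of_neg (by simpa using hx)]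
      simp only [F]
      rw [h0 x hx, norm_zero, Real.zero_rpow hr0.ne', mul_zero, zero_add]
      refine ih'.trans ?_
      have := concave_step hr0 hr1 (n := (n : ℝ)) (v := ((n + (l.filter (· ∈ A)).length : ℕ) : ℝ))
        (by positivity) (by push_cast; linarith [Nat.cast_nonneg (α := ℝ) (l.filter (· ∈ A)).length])
      have e3 : ((n + 1 + (l.filter (· ∈ A)).length : ℕ) : ℝ)
          = ((n + (l.filter (· ∈ A)).length : ℕ) : ℝ) + 1 := by push_cast; ring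
      rw [e3]
      push_cast at this ⊢
      linarith

/-- decreasing lists: the `ℓ₁` sum is controlled. -/
lemma F_sorted {r : ℝ} (hr0 : 0 < r) (hr1 : r < 1) (a : ℕ → 𝕜) (n : ℕ) {l : List ℕ}
    (hs : l.Pairwise (fun x y => ‖a y‖ ≤ ‖a x‖)) {s : ℝ} (hs0 : 0 ≤ s)
    (hsn : ∀ x ∈ l, (n : ℝ) * ‖a x‖ ≤ s) :
    (s + (l.map (fun x => ‖a x‖)).sum) ^ r ≤ s ^ r + F r a n l := by
  induction l generalizing n s with
  | nil => simp [F]
  | cons x l ih =>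
    rw [List.pairwise_cons] at hs
    simp only [F, List.map_cons, List.sum_cons]
    have h1 : ∀ y ∈ l, ((n + 1 : ℕ) : ℝ) * ‖a y‖ ≤ s + ‖a x‖ := by
      intro y hy
      have e1 := hsn y (by simp [hy])
      have e2 := hs.1 y hy
      push_cast
      nlinarith
    have h2 := ih (n + 1) hs.2 (s := s + ‖a x‖) (by positivity) h1
    have h3 : (s + ‖a x‖) ^ r ≤ s ^ r + wt r n * ‖a x‖ ^ r := by
      rcases eq_or_lt_of_le (norm_nonneg (a x)) with h | h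
      · rw [← h, Real.zero_rpow hr0.ne']; simp
      · have hst : s = (s / ‖a x‖) * ‖a x‖ := by field_simp
        have hsa : (n : ℝ) ≤ s / ‖a x‖ := by
          rw [le_div_iff₀ h]; exact hsn x (by simp)
        have := concave_step hr0 hr1 (n := (n : ℝ)) (v := s / ‖a x‖) (by positivity) hsa
        have e1 : (s + ‖a x‖) ^ r = (s / ‖a x‖ + 1) ^ r * ‖a x‖ ^ r := by
          rw [← Real.mul_rpow (by positivity) h.le]
          congr 1
          field_simp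
        have e2 : s ^ r = (s / ‖a x‖) ^ r * ‖a x‖ ^ r := by
          rw [← Real.mul_rpow (by positivity) h.le]
          congr 1
        have hpos : 0 ≤ ‖a x‖ ^ r := by positivity
        rw [e1, e2]
        unfold wt
        nlinarith
    have e : s + (‖a x‖ + (l.map (fun x => ‖a x‖)).sum)
        = s + ‖a x‖ + (l.map (fun x => ‖a x‖)).sum := by ring
    rw [e]
    linarith


lemma F_zero {r : ℝ} (hr0 : 0 < r) (n : ℕ) (l : List ℕ) : F r (0 : ℕ → 𝕜) n l = 0 := by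
  induction l generalizing n with
  | nil => simp [F]
  | cons x l ih => simp [F, ih, Real.zero_rpow hr0.ne']

/-- lists without repetition -/
abbrev NL := {l : List ℕ // l.Nodup}

/-- boundedness of the sums `F r a 0 l`. -/
def Bd (r : ℝ) (a : ℕ → 𝕜) : Prop := BddAbove (Set.range fun l : NL => F r a 0 l.1)

/-- the `r`-th power of the Lorentz quasi-norm. -/
noncomputable def pw (r : ℝ) (a : ℕ → 𝕜) : ℝ := ⨆ l : NL, F r a 0 l.1

instance : Nonempty NL := ⟨⟨[], List.nodup_nil⟩⟩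

lemma le_pw {r : ℝ} {a : ℕ → 𝕜} (hb : Bd r a) {l : List ℕ} (hl : l.Nodup) :
    F r a 0 l ≤ pw r a := le_ciSup hb ⟨l, hl⟩

lemma pw_le {r : ℝ} {a : ℕ → 𝕜} {M : ℝ} (h : ∀ l : List ℕ, l.Nodup → F r a 0 l ≤ M) :
    pw r a ≤ M := ciSup_le fun l => h l.1 l.2

lemma bd_of {r : ℝ} {a : ℕ → 𝕜} {M : ℝ} (h : ∀ l : List ℕ, l.Nodup → F r a 0 l ≤ M) :
    Bd r a := by
  refine ⟨M, ?_⟩
  rintro t ⟨l, rfl⟩
  exact h l.1 l.2

lemma pw_nonneg {r : ℝ} (hr0 : 0 < r) (a : ℕ → 𝕜) : 0 ≤ pw r a :=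
  Real.iSup_nonneg fun l => F_nonneg hr0 a 0 l.1

lemma norm_rpow_le_pw {r : ℝ} (hr0 : 0 < r) {a : ℕ → 𝕜} (hb : Bd r a) (x : ℕ) :
    ‖a x‖ ^ r ≤ pw r a := by
  have := le_pw hb (List.nodup_singleton x)
  simpa [F, wt_zero hr0] using this

lemma bd_add {r : ℝ} (hr0 : 0 < r) (hr1 : r < 1) {a b : ℕ → 𝕜} (ha : Bd r a) (hb : Bd r b) :
    Bd r (a + b) :=
  bd_of (M := pw r a + pw r b) fun l hl =>
    (F_add_le hr0 hr1 a b 0 l).trans (add_le_add (le_pw ha hl) (le_pw hb hl))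

lemma pw_add_le {r : ℝ} (hr0 : 0 < r) (hr1 : r < 1) {a b : ℕ → 𝕜} (ha : Bd r a)
    (hb : Bd r b) : pw r (a + b) ≤ pw r a + pw r b :=
  pw_le fun l hl =>
    (F_add_le hr0 hr1 a b 0 l).trans (add_le_add (le_pw ha hl) (le_pw hb hl))

lemma bd_smul {r : ℝ} (c : 𝕜) {a : ℕ → 𝕜} (ha : Bd r a) : Bd r (c • a) :=
  bd_of (M := ‖c‖ ^ r * pw r a) fun l hl => by
    rw [F_smul]
    exact mul_le_mul_of_nonneg_left (le_pw ha hl) (Real.rpow_nonneg (norm_nonneg _) _)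

lemma pw_smul {r : ℝ} (c : 𝕜) (a : ℕ → 𝕜) : pw r (c • a) = ‖c‖ ^ r * pw r a := by
  unfold pw
  simp only [F_smul]
  rw [Real.mul_iSup_of_nonneg (Real.rpow_nonneg (norm_nonneg _) _)]

lemma pw_zero {r : ℝ} (hr0 : 0 < r) : pw r (0 : ℕ → 𝕜) = 0 := by
  have := pw_smul (r := r) (0 : 𝕜) (0 : ℕ → 𝕜)
  simpa [Real.zero_rpow hr0.ne'] using this

lemma exists_sorted (a : ℕ → 𝕜) (A : Finset ℕ) :
    ∃ l : List ℕ, l.Nodup ∧ l.toFinset = A ∧ l.Pairwise (fun x y => ‖a y‖ ≤ ‖a x‖) := by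
  classical
  refine ⟨A.toList.mergeSort (fun x y => decide (‖a y‖ ≤ ‖a x‖)), ?_, ?_, ?_⟩
  · exact ((List.mergeSort_perm _ _).nodup_iff).2 A.nodup_toList
  · ext x
    simp
  · have := List.pairwise_mergeSort (le := fun x y => decide (‖a y‖ ≤ ‖a x‖))
      (by intro x y z h1 h2; simp only [decide_eq_true_eq] at *; exact h2.trans h1)
      (by intro x y; simp only [Bool.or_eq_true, decide_eq_true_eq]; exact le_total _ _)
      A.toList
    simpa using this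

lemma sum_norm_rpow_le_pw {r : ℝ} (hr0 : 0 < r) (hr1 : r < 1) {a : ℕ → 𝕜} (hb : Bd r a)
    (A : Finset ℕ) : (∑ x ∈ A, ‖a x‖) ^ r ≤ pw r a := by
  obtain ⟨l, hl, hlA, hs⟩ := exists_sorted a A
  have h := F_sorted hr0 hr1 a 0 hs (s := 0) le_rfl (by simp)
  rw [Real.zero_rpow hr0.ne', zero_add, zero_add] at h
  have e : (l.map (fun x => ‖a x‖)).sum = ∑ x ∈ A, ‖a x‖ := by
    rw [← hlA, List.sum_toFinset _ hl]
  rw [e] at h
  exact h.trans (le_pw hb hl)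

/-- cutting off the coordinates in `B`. -/
def cut (B : Finset ℕ) (a : ℕ → 𝕜) : ℕ → 𝕜 := fun x => if x ∈ B then 0 else a x

lemma finite_large {r : ℝ} (hr0 : 0 < r) {a : ℕ → 𝕜} (hb : Bd r a)
    {δ : ℝ} (hδ : 0 < δ) : {x | δ < ‖a x‖}.Finite := by
  by_contra hinf
  have hinf : {x | δ < ‖a x‖}.Infinite := hinf
  have hlim : Filter.Tendsto (fun n : ℕ => δ ^ r * (n : ℝ) ^ r) Filter.atTop Filter.atTop :=
    ((tendsto_rpow_atTop hr0).comp tendsto_natCast_atTop_atTop).const_mul_atTop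
      (Real.rpow_pos_of_pos hδ r)
  obtain ⟨n, hn⟩ := (hlim.eventually (Filter.eventually_gt_atTop (pw r a))).exists
  obtain ⟨t, ht, htc⟩ := hinf.exists_subset_card_eq n
  have h1 := F_lower hr0 a hδ.le 0 (l := t.toList) (fun x hx => by
    have : x ∈ {x | δ < ‖a x‖} := ht (by simpa using hx)
    exact le_of_lt this)
  have h2 := le_pw hb (Finset.nodup_toList t)
  simp only [Finset.length_toList, htc, Nat.cast_zero, Real.zero_rpow hr0.ne', zero_add,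
    sub_zero] at h1
  linarith

lemma tail_small {r : ℝ} (hr0 : 0 < r) (hr1 : r < 1) {a : ℕ → 𝕜} (hb : Bd r a) {ε : ℝ}
    (hε : 0 < ε) : ∃ A : Finset ℕ, ∀ B : Finset ℕ, A ⊆ B → ∀ l : List ℕ, l.Nodup →
      F r (cut B a) 0 l ≤ ε := by
  classical
  obtain ⟨⟨l0, hl0⟩, h0⟩ := exists_lt_of_lt_ciSup
    (show pw r a - ε / 2 < ⨆ l : NL, F r a 0 l.1 by unfold pw; linarith)
  simp only at h0
  set K := l0.length with hK
  obtain ⟨δ, hδ, hδK⟩ : ∃ δ : ℝ, 0 < δ ∧ δ ^ r * (K : ℝ) ^ r ≤ ε / 2 := by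
    refine ⟨(ε / 2 / ((K : ℝ) ^ r + 1)) ^ (1 / r), by positivity, ?_⟩
    rw [← Real.rpow_mul (by positivity), one_div, inv_mul_cancel₀ hr0.ne', Real.rpow_one]
    have : (0 : ℝ) ≤ (K : ℝ) ^ r := by positivity
    rw [div_mul_eq_mul_div, div_le_iff₀ (by positivity)]
    nlinarith
  have hfin := finite_large hr0 hb hδ
  refine ⟨l0.toFinset ∪ hfin.toFinset, fun B hB l hl => ?_⟩
  have hflat : ∀ x ∈ l, ‖cut B a x‖ ≤ δ := by
    intro x _
    unfold cut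
    split_ifs with hx
    · simpa using hδ.le
    · by_contra hcon
      exact hx (hB (Finset.mem_union_right _ (by simpa using not_le.1 hcon)))
  have h1 := F_flat' hr0 hr1 (cut B a) K hδ.le hflat
  have h2 : F r (cut B a) K l ≤ F r (cut B a) K (l.filter (fun x => decide (x ∉ B))) := by
    refine F_filter hr0 hr1 _ _ K ?_
    intro x _ hx
    have : x ∈ B := by simpa using hx
    simp [cut, this]
  have h3 : F r (cut B a) K (l.filter (fun x => decide (x ∉ B)))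
      = F r a K (l.filter (fun x => decide (x ∉ B))) := by
    refine F_congr K ?_
    intro x hx
    have : x ∉ B := by
      have := (List.mem_filter.1 hx).2
      simpa using this
    simp [cut, this]
  have h4 : F r a 0 (l0 ++ l.filter (fun x => decide (x ∉ B))) ≤ pw r a := by
    refine le_pw hb ?_
    rw [List.nodup_append']
    refine ⟨hl0, hl.filter _, ?_⟩
    intro x hx hx'
    have h5 : x ∉ B := by
      have := (List.mem_filter.1 hx').2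
      simpa using this
    exact h5 (hB (Finset.mem_union_left _ (by simpa using hx)))
  rw [F_append, zero_add, ← hK] at h4
  linarith


variable (𝕜) in
/-- The Lorentz-type sequence space. -/
def Lor (r : ℝ) (hr0 : 0 < r) (hr1 : r < 1) : Submodule 𝕜 (ℕ → 𝕜) where
  carrier := {a | Bd r a}
  add_mem' := fun ha hb => bd_add hr0 hr1 ha hb
  zero_mem' := bd_of (M := 0) fun l _ => (F_zero hr0 0 l).le
  smul_mem' := fun c _ ha => bd_smul c ha

/-- the quasi-norm. -/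
noncomputable def nrm {r : ℝ} {hr0 : 0 < r} {hr1 : r < 1} (a : Lor 𝕜 r hr0 hr1) : ℝ :=
  (pw r (a : ℕ → 𝕜)) ^ (1 / r)

section Norm

variable {r : ℝ} {hr0 : 0 < r} {hr1 : r < 1}

lemma nrm_nonneg (a : Lor 𝕜 r hr0 hr1) : 0 ≤ nrm a :=
  Real.rpow_nonneg (pw_nonneg hr0 _) _

lemma nrm_rpow (a : Lor 𝕜 r hr0 hr1) : nrm a ^ r = pw r (a : ℕ → 𝕜) := by
  unfold nrm
  rw [← Real.rpow_mul (pw_nonneg hr0 _), one_div, inv_mul_cancel₀ hr0.ne', Real.rpow_one]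

lemma nrm_le_iff (a : Lor 𝕜 r hr0 hr1) {c : ℝ} (hc : 0 ≤ c) :
    nrm a ≤ c ↔ pw r (a : ℕ → 𝕜) ≤ c ^ r := by
  rw [← nrm_rpow, Real.rpow_le_rpow_iff (nrm_nonneg a) hc hr0]

lemma lt_nrm_iff (a : Lor 𝕜 r hr0 hr1) {c : ℝ} (hc : 0 ≤ c) :
    nrm a < c ↔ pw r (a : ℕ → 𝕜) < c ^ r := by
  rw [← nrm_rpow, Real.rpow_lt_rpow_iff (nrm_nonneg a) hc hr0]

lemma nrm_rpow_add (a b : Lor 𝕜 r hr0 hr1) : nrm (a + b) ^ r ≤ nrm a ^ r + nrm b ^ r := by
  rw [nrm_rpow, nrm_rpow, nrm_rpow]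
  exact pw_add_le hr0 hr1 a.2 b.2

lemma norm_apply_le (a : Lor 𝕜 r hr0 hr1) (x : ℕ) : ‖(a : ℕ → 𝕜) x‖ ≤ nrm a := by
  have := norm_rpow_le_pw hr0 a.2 x
  rw [← nrm_rpow] at this
  exact (Real.rpow_le_rpow_iff (norm_nonneg _) (nrm_nonneg a) hr0).1 this

lemma sum_norm_le (a : Lor 𝕜 r hr0 hr1) (A : Finset ℕ) :
    ∑ x ∈ A, ‖(a : ℕ → 𝕜) x‖ ≤ nrm a := by
  have := sum_norm_rpow_le_pw hr0 hr1 a.2 A
  rw [← nrm_rpow] at this
  exact (Real.rpow_le_rpow_iff (Finset.sum_nonneg fun _ _ => norm_nonneg _)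
    (nrm_nonneg a) hr0).1 this

lemma isQuasiNorm_nrm : IsQuasiNorm 𝕜 (nrm : Lor 𝕜 r hr0 hr1 → ℝ) where
  nonneg := nrm_nonneg
  eq_zero_iff := by
    intro a
    constructor
    · intro h
      ext x
      have := norm_apply_le a x
      rw [h] at this
      simpa using this
    · rintro rfl
      unfold nrm
      have : ((0 : Lor 𝕜 r hr0 hr1) : ℕ → 𝕜) = 0 := rfl
      rw [this, pw_zero hr0, Real.zero_rpow]
      simpa using hr0.ne'
  smul := by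
    intro c a
    have h1 : nrm (c • a) ^ r = (‖c‖ * nrm a) ^ r := by
      rw [Real.mul_rpow (norm_nonneg _) (nrm_nonneg _), nrm_rpow, nrm_rpow]
      exact pw_smul c _
    exact (Real.rpow_left_inj (nrm_nonneg _)
      (mul_nonneg (norm_nonneg _) (nrm_nonneg _)) hr0.ne').1 h1
  add_le := by
    refine ⟨(2 : ℝ) ^ (1 / r), ?_, ?_⟩
    · exact Real.one_le_rpow (by norm_num) (by positivity)
    · intro a b
      have ha := nrm_nonneg a
      have hb := nrm_nonneg b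
      have h2 : 0 ≤ (2 : ℝ) ^ (1 / r) * (nrm a + nrm b) := by positivity
      rw [nrm_le_iff _ h2, Real.mul_rpow (by positivity) (by positivity),
        ← Real.rpow_mul (by positivity), one_div, inv_mul_cancel₀ hr0.ne', Real.rpow_one]
      have h3 := nrm_rpow_add a b
      rw [nrm_rpow (a + b)] at h3
      have h4 : nrm a ^ r ≤ (nrm a + nrm b) ^ r := Real.rpow_le_rpow ha (by linarith) hr0.le
      have h5 : nrm b ^ r ≤ (nrm a + nrm b) ^ r := Real.rpow_le_rpow hb (by linarith) hr0.le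
      linarith

lemma F_tendsto {u : ℕ → ℕ → 𝕜} {a : ℕ → 𝕜}
    (h : ∀ x, Filter.Tendsto (fun m => u m x) Filter.atTop (nhds (a x))) (hr : 0 ≤ r)
    (n : ℕ) (l : List ℕ) :
    Filter.Tendsto (fun m => F r (u m) n l) Filter.atTop (nhds (F r a n l)) := by
  induction l generalizing n with
  | nil => simp [F]
  | cons x l ih =>
    simp only [F]
    refine Filter.Tendsto.add (Filter.Tendsto.const_mul _ ?_) (ih (n + 1))
    exact (h x).norm.rpow_const (Or.inr hr)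

lemma isComplete_nrm : IsCompleteFor (nrm : Lor 𝕜 r hr0 hr1 → ℝ) := by
  intro s hs
  have hx : ∀ x, ∃ t : 𝕜, Filter.Tendsto (fun m => (s m : ℕ → 𝕜) x) Filter.atTop (nhds t) := by
    intro x
    refine cauchySeq_tendsto_of_complete ?_
    rw [Metric.cauchySeq_iff]
    intro ε hε
    obtain ⟨n₀, hn₀⟩ := hs ε hε
    refine ⟨n₀, fun m hm n hn => ?_⟩
    rw [dist_eq_norm]
    have := norm_apply_le (s m - s n) x
    exact lt_of_le_of_lt this (hn₀ m hm n hn)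
  choose a ha using hx
  have key : ∀ ε > 0, ∃ n₀, ∀ n ≥ n₀, ∀ l : List ℕ, l.Nodup →
      F r ((s n : ℕ → 𝕜) - a) 0 l ≤ ε ^ r := by
    intro ε hε
    obtain ⟨n₀, hn₀⟩ := hs ε hε
    refine ⟨n₀, fun n hn l hl => ?_⟩
    have h1 : Filter.Tendsto (fun m => F r ((s n : ℕ → 𝕜) - (s m : ℕ → 𝕜)) 0 l) Filter.atTop
        (nhds (F r ((s n : ℕ → 𝕜) - a) 0 l)) := by
      refine F_tendsto ?_ hr0.le 0 l
      intro x
      exact Filter.Tendsto.sub tendsto_const_nhds (ha x)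
    refine le_of_tendsto h1 ?_
    filter_upwards [Filter.eventually_ge_atTop n₀] with m hm
    have h2 := (hn₀ n hn m hm).le
    rw [nrm_le_iff _ hε.le] at h2
    exact (le_pw (s n - s m).2 hl).trans h2
  have hmem : Bd r a := by
    obtain ⟨n₀, hn₀⟩ := key 1 one_pos
    have h1 : Bd r ((s n₀ : ℕ → 𝕜) - a) := bd_of (hn₀ n₀ le_rfl)
    have h2 := bd_add hr0 hr1 (s n₀).2 (bd_smul (-1 : 𝕜) h1)
    have e : (s n₀ : ℕ → 𝕜) + (-1 : 𝕜) • ((s n₀ : ℕ → 𝕜) - a) = a := by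
      ext x; simp
    rwa [e] at h2
  refine ⟨⟨a, hmem⟩, fun ε hε => ?_⟩
  obtain ⟨n₀, hn₀⟩ := key (ε / 2) (by positivity)
  refine ⟨n₀, fun n hn => ?_⟩
  have h1 : nrm (s n - (⟨a, hmem⟩ : Lor 𝕜 r hr0 hr1)) ≤ ε / 2 := by
    rw [nrm_le_iff _ (by positivity)]
    exact pw_le (hn₀ n hn)
  linarith

lemma single_bd (hr0 : 0 < r) (hr1 : r < 1) (n : ℕ) : Bd r (Pi.single n (1 : 𝕜)) := by
  refine bd_of (M := 1) fun l hl => ?_
  have h := F_indicator hr0 hr1 (Pi.single n (1 : 𝕜)) {n} (by intro x hx; simp at hx; subst hx; simp)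
    (by intro x hx; simp at hx; simp [Pi.single_apply, hx]) 0 l
  refine h.trans ?_
  rw [zero_add, Nat.cast_zero, Real.zero_rpow hr0.ne', sub_zero]
  have h2 : (l.filter (· ∈ ({n} : Finset ℕ))).length ≤ 1 := by
    have h3 : (l.filter (· ∈ ({n} : Finset ℕ))).toFinset ⊆ {n} := by
      intro x hx
      simpa using (List.mem_filter.1 (List.mem_toFinset.1 hx)).2
    have h4 := Finset.card_le_card h3
    rw [List.toFinset_card_of_nodup (hl.filter _)] at h4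
    simpa using h4
  exact Real.rpow_le_one (by positivity) (by exact_mod_cast h2) hr0.le

/-- unit vectors. -/
noncomputable def ev (n : ℕ) : Lor 𝕜 r hr0 hr1 := ⟨Pi.single n 1, single_bd hr0 hr1 n⟩

/-- coordinate functionals. -/
noncomputable def ev' (k : ℕ) : Lor 𝕜 r hr0 hr1 →ₗ[𝕜] 𝕜 :=
  (LinearMap.proj k).comp (Lor 𝕜 r hr0 hr1).subtype

@[simp] lemma ev'_apply (k : ℕ) (a : Lor 𝕜 r hr0 hr1) : ev' k a = (a : ℕ → 𝕜) k := rfl

lemma sum_ev_apply (A : Finset ℕ) (x : ℕ) :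
    ((∑ n ∈ A, ev n : Lor 𝕜 r hr0 hr1) : ℕ → 𝕜) x = if x ∈ A then 1 else 0 := by
  classical
  have : ((∑ n ∈ A, ev n : Lor 𝕜 r hr0 hr1) : ℕ → 𝕜) = ∑ n ∈ A, Pi.single n (1 : 𝕜) := by
    rw [← Submodule.subtype_apply, map_sum]
    rfl
  rw [this, Finset.sum_apply]
  simp [Pi.single_apply]

lemma nrm_sum_ev_le (A : Finset ℕ) :
    nrm (∑ n ∈ A, ev n : Lor 𝕜 r hr0 hr1) ≤ A.card := by
  classical
  rw [nrm_le_iff _ (by positivity)]
  refine pw_le fun l hl => ?_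
  have h := F_indicator hr0 hr1 ((∑ n ∈ A, ev n : Lor 𝕜 r hr0 hr1) : ℕ → 𝕜) A
    (by intro x hx; rw [sum_ev_apply, if_pos hx]; simp)
    (by intro x hx; rw [sum_ev_apply, if_neg hx]) 0 l
  refine h.trans ?_
  rw [zero_add, Nat.cast_zero, Real.zero_rpow hr0.ne', sub_zero]
  refine Real.rpow_le_rpow (by positivity) ?_ hr0.le
  have h3 : (l.filter (· ∈ A)).toFinset ⊆ A := by
    intro x hx
    simpa using (List.mem_filter.1 (List.mem_toFinset.1 hx)).2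
  have h4 := Finset.card_le_card h3
  rw [List.toFinset_card_of_nodup (hl.filter _)] at h4
  exact_mod_cast h4

lemma one_le_nrm_ev (n : ℕ) : 1 ≤ nrm (ev n : Lor 𝕜 r hr0 hr1) := by
  have := norm_apply_le (ev n : Lor 𝕜 r hr0 hr1) n
  simpa [ev] using this

lemma dualNorm_sum_ev' (A : Finset ℕ) :
    dualNorm 𝕜 (nrm : Lor 𝕜 r hr0 hr1 → ℝ) (∑ n ∈ A, ev' n) ≤ 1 := by
  unfold dualNorm
  refine iSup_le fun x => ?_
  have h1 : ‖(∑ n ∈ A, ev' n : Lor 𝕜 r hr0 hr1 →ₗ[𝕜] 𝕜) x.1‖ ≤ 1 := by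
    rw [LinearMap.sum_apply]
    refine (norm_sum_le _ _).trans ?_
    simp only [ev'_apply]
    exact (sum_norm_le x.1 A).trans x.2
  calc ENNReal.ofReal ‖(∑ n ∈ A, ev' n : Lor 𝕜 r hr0 hr1 →ₗ[𝕜] 𝕜) x.1‖
      ≤ ENNReal.ofReal 1 := ENNReal.ofReal_le_ofReal h1
    _ = 1 := ENNReal.ofReal_one

lemma isBasis_ev : IsBasis 𝕜 (nrm : Lor 𝕜 r hr0 hr1 → ℝ) ev ev' where
  dense_span := by
    classical
    intro a ε hε
    obtain ⟨A, hA⟩ := tail_small hr0 hr1 a.2 (ε := (ε / 2) ^ r) (by positivity)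
    refine ⟨∑ n ∈ A, (a : ℕ → 𝕜) n • ev n, ?_, ?_⟩
    · exact Submodule.sum_mem _ fun n _ => Submodule.smul_mem _ _
        (Submodule.subset_span ⟨n, rfl⟩)
    · have e : ((a - ∑ n ∈ A, (a : ℕ → 𝕜) n • ev n : Lor 𝕜 r hr0 hr1) : ℕ → 𝕜) = cut A a := by
        ext x
        have h1 : ((∑ n ∈ A, (a : ℕ → 𝕜) n • ev n : Lor 𝕜 r hr0 hr1) : ℕ → 𝕜)
            = ∑ n ∈ A, (a : ℕ → 𝕜) n • Pi.single n (1 : 𝕜) := by
          rw [← Submodule.subtype_apply, map_sum]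
          rfl
        rw [Submodule.coe_sub, Pi.sub_apply, h1, Finset.sum_apply]
        simp only [Pi.smul_apply, smul_eq_mul, cut]
        simp only [Pi.single_apply, mul_ite, mul_one, mul_zero, Finset.sum_ite_eq]
        split_ifs <;> simp
      have h2 : nrm (a - ∑ n ∈ A, (a : ℕ → 𝕜) n • ev n : Lor 𝕜 r hr0 hr1) ≤ ε / 2 := by
        rw [nrm_le_iff _ (by positivity), e]
        exact pw_le fun l hl => hA A (Finset.Subset.refl _) l hl
      linarith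
  biorthogonal := by
    intro k n
    simp [ev, Pi.single_apply]
  bounded_below := ⟨1, one_pos, one_le_nrm_ev⟩
  bounded_above := ⟨1, fun n => by simpa using nrm_sum_ev_le (𝕜 := 𝕜) (hr0 := hr0) (hr1 := hr1) {n}⟩
  dual_bounded := ⟨1, fun n => by
    simpa using dualNorm_sum_ev' (𝕜 := 𝕜) (hr0 := hr0) (hr1 := hr1) {n}⟩

lemma isBidemocratic_ev : IsBidemocratic 𝕜 (nrm : Lor 𝕜 r hr0 hr1 → ℝ) ev ev' := by
  refine ⟨1, fun m _ => ?_⟩
  have h1 : phi (nrm : Lor 𝕜 r hr0 hr1 → ℝ) ev m ≤ m := by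
    unfold phi
    refine iSup_le fun A => ?_
    have : nrm (∑ n ∈ A.1, ev n : Lor 𝕜 r hr0 hr1) ≤ (m : ℝ) :=
      (nrm_sum_ev_le A.1).trans (by exact_mod_cast A.2)
    calc ENNReal.ofReal (nrm (∑ n ∈ A.1, ev n : Lor 𝕜 r hr0 hr1))
        ≤ ENNReal.ofReal (m : ℝ) := ENNReal.ofReal_le_ofReal this
      _ = m := ENNReal.ofReal_natCast m
  have h2 : phiStar 𝕜 (nrm : Lor 𝕜 r hr0 hr1 → ℝ) ev' m ≤ 1 := by
    unfold phiStar
    exact iSup_le fun A => dualNorm_sum_ev' A.1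
  calc phi (nrm : Lor 𝕜 r hr0 hr1 → ℝ) ev m * phiStar 𝕜 (nrm : Lor 𝕜 r hr0 hr1 → ℝ) ev' m
      ≤ m * 1 := mul_le_mul' h1 h2
    _ = ((1 : ℝ≥0) : ℝ≥0∞) * m := by simp


lemma exists_vanish (Y : Submodule 𝕜 (Lor 𝕜 r hr0 hr1)) (hY : ¬ FiniteDimensional 𝕜 Y)
    (B : Finset ℕ) : ∃ z ∈ Y, z ≠ 0 ∧ ∀ x ∈ B, (z : ℕ → 𝕜) x = 0 := by
  by_contra hcon
  push Not at hcon
  apply hY
  let f : Y →ₗ[𝕜] (B → 𝕜) :=
    LinearMap.pi fun x => (ev' (x : ℕ)).comp Y.subtype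
  refine FiniteDimensional.of_injective f ?_
  rw [injective_iff_map_eq_zero]
  intro y hy
  by_contra hne
  obtain ⟨x, hx, hx0⟩ := hcon y.1 y.2 (by simpa using hne)
  apply hx0
  have := congrFun hy ⟨x, hx⟩
  simpa [f] using this

lemma exists_max (z : Lor 𝕜 r hr0 hr1) (hz : z ≠ 0) :
    ∃ x₀, (z : ℕ → 𝕜) x₀ ≠ 0 ∧ ∀ x, ‖(z : ℕ → 𝕜) x‖ ≤ ‖(z : ℕ → 𝕜) x₀‖ := by
  obtain ⟨x₁, hx₁⟩ : ∃ x₁, (z : ℕ → 𝕜) x₁ ≠ 0 := by
    by_contra hcon
    push Not at hcon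
    exact hz (by ext x; simpa using hcon x)
  have hpos : 0 < ‖(z : ℕ → 𝕜) x₁‖ := norm_pos_iff.2 hx₁
  have hfin := finite_large hr0 z.2 (half_pos hpos)
  have hmem : x₁ ∈ hfin.toFinset := by simpa using hx₁
  obtain ⟨x₀, hx₀, hmax⟩ := Finset.exists_max_image hfin.toFinset
    (fun x => ‖(z : ℕ → 𝕜) x‖) ⟨x₁, hmem⟩
  have h1 := hmax x₁ hmem
  refine ⟨x₀, fun h => ?_, fun x => ?_⟩
  · rw [h, norm_zero] at h1; linarith
  · by_cases hx : x ∈ hfin.toFinset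
    · exact hmax x hx
    · have : ‖(z : ℕ → 𝕜) x‖ ≤ ‖(z : ℕ → 𝕜) x₁‖ / 2 := by simpa using hx
      linarith

lemma exists_scaled (Y : Submodule 𝕜 (Lor 𝕜 r hr0 hr1)) (hY : ¬ FiniteDimensional 𝕜 Y)
    (B : Finset ℕ) : ∃ z ∈ Y, (∀ x ∈ B, (z : ℕ → 𝕜) x = 0) ∧
      (∃ x₀, ‖(z : ℕ → 𝕜) x₀‖ = 1) ∧ ∀ x, ‖(z : ℕ → 𝕜) x‖ ≤ 1 := by
  obtain ⟨z, hzY, hz0, hzB⟩ := exists_vanish Y hY B
  obtain ⟨x₀, hx₀, hmax⟩ := exists_max z hz0
  have hpos : 0 < ‖(z : ℕ → 𝕜) x₀‖ := norm_pos_iff.2 hx₀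
  refine ⟨((z : ℕ → 𝕜) x₀)⁻¹ • z, Y.smul_mem _ hzY, ?_, ⟨x₀, ?_⟩, ?_⟩
  · intro x hx
    simp [hzB x hx]
  · simp [hx₀]
  · intro x
    rw [Submodule.coe_smul, Pi.smul_apply, smul_eq_mul, norm_mul, norm_inv,
      inv_mul_le_iff₀ hpos, mul_one]
    exact hmax x

lemma flat_aux (Y : Submodule 𝕜 (Lor 𝕜 r hr0 hr1)) (hY : ¬ FiniteDimensional 𝕜 Y)
    (A : Finset ℕ) (k : ℕ) : ∀ η : ℝ, 0 < η → ∃ y ∈ Y, (∀ x ∈ A, (y : ℕ → 𝕜) x = 0) ∧
      (∃ T : Finset ℕ, T.card = k ∧ ∀ x ∈ T, 1 - η ≤ ‖(y : ℕ → 𝕜) x‖) ∧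
      ∀ x, ‖(y : ℕ → 𝕜) x‖ ≤ 1 + η := by
  classical
  induction k with
  | zero =>
    intro η hη
    exact ⟨0, Y.zero_mem, by simp, ⟨∅, by simp, by simp⟩, by intro x; simp; linarith⟩
  | succ k ih =>
    intro η hη
    obtain ⟨y, hyY, hyA, ⟨T, hTk, hT⟩, hy⟩ := ih (η / 2) (half_pos hη)
    have hfin := finite_large hr0 y.2 (half_pos hη)
    obtain ⟨z, hzY, hzB, ⟨x₀, hx₀⟩, hz⟩ := exists_scaled Y hY (A ∪ T ∪ hfin.toFinset)
    have hx₀B : x₀ ∉ A ∪ T ∪ hfin.toFinset := by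
      intro h
      rw [hzB x₀ h] at hx₀
      simp at hx₀
    have hsmall : ∀ x, x ∉ A ∪ T ∪ hfin.toFinset → ‖(y : ℕ → 𝕜) x‖ ≤ η / 2 := by
      intro x hx
      by_contra hcon
      exact hx (Finset.mem_union_right _ (by simpa using not_le.1 hcon))
    refine ⟨y + z, Y.add_mem hyY hzY, ?_, ⟨insert x₀ T, ?_, ?_⟩, ?_⟩
    · intro x hx
      rw [Submodule.coe_add, Pi.add_apply, hyA x hx, hzB x (by simp [hx]), add_zero]
    · rw [Finset.card_insert_of_notMem (fun h => hx₀B (by simp [h])), hTk]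
    · intro x hx
      rw [Submodule.coe_add, Pi.add_apply]
      rcases Finset.mem_insert.1 hx with h | h
      · subst h
        have h1 := hsmall x hx₀B
        have h2 := norm_sub_norm_le ((z : ℕ → 𝕜) x) (-(y : ℕ → 𝕜) x)
        rw [norm_neg, sub_neg_eq_add, add_comm ((z : ℕ → 𝕜) x)] at h2
        linarith
      · rw [hzB x (by simp [h]), add_zero]
        have := hT x h
        linarith
    · intro x
      rw [Submodule.coe_add, Pi.add_apply]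
      by_cases hx : x ∈ A ∪ T ∪ hfin.toFinset
      · rw [hzB x hx, add_zero]
        have := hy x
        linarith
      · have h1 := hsmall x hx
        have h2 := norm_add_le ((y : ℕ → 𝕜) x) ((z : ℕ → 𝕜) x)
        have h3 := hz x
        linarith

lemma exists_flat (Y : Submodule 𝕜 (Lor 𝕜 r hr0 hr1)) (hY : ¬ FiniteDimensional 𝕜 Y)
    (A : Finset ℕ) {δ : ℝ} (hδ : 0 < δ) : ∃ y ∈ Y, (∀ x ∈ A, (y : ℕ → 𝕜) x = 0) ∧
      nrm y = 1 ∧ ∀ x, ‖(y : ℕ → 𝕜) x‖ ≤ δ := by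
  obtain ⟨k, hk⟩ := exists_nat_gt (3 / δ)
  have hk0 : (0 : ℝ) < k := lt_trans (by positivity) hk
  obtain ⟨y, hyY, hyA, ⟨T, hTk, hT⟩, hy⟩ := flat_aux Y hY A k (1 / 2) (by norm_num)
  have h1 : (k : ℝ) / 2 ≤ nrm y := by
    have h2 := sum_norm_le y T
    have h3 : ∑ x ∈ T, (1 / 2 : ℝ) ≤ ∑ x ∈ T, ‖(y : ℕ → 𝕜) x‖ :=
      Finset.sum_le_sum fun x hx => by have := hT x hx; linarith
    rw [Finset.sum_const, hTk, nsmul_eq_mul] at h3
    linarith
  have hpos : 0 < nrm y := by linarith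
  have hnorm : ‖((nrm y)⁻¹ : ℝ) • (1 : 𝕜)‖ = (nrm y)⁻¹ := by
    rw [norm_smul, norm_one, mul_one, Real.norm_of_nonneg (by positivity)]
  refine ⟨(((nrm y)⁻¹ : ℝ) • (1 : 𝕜)) • y, Y.smul_mem _ hyY, ?_, ?_, ?_⟩
  · intro x hx
    rw [Submodule.coe_smul, Pi.smul_apply, hyA x hx, smul_zero]
  · rw [isQuasiNorm_nrm.smul, hnorm, inv_mul_cancel₀ hpos.ne']
  · intro x
    rw [Submodule.coe_smul, Pi.smul_apply, norm_smul, hnorm, inv_mul_le_iff₀ hpos]
    have h2 := hy x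
    have h3 : 3 ≤ δ * k := by
      rw [div_lt_iff₀ hδ] at hk
      linarith
    nlinarith

/-- The key construction: sums of `m` vectors of norm one in `Y` that behave like in `ℓ_r`. -/
lemma exists_big (Y : Submodule 𝕜 (Lor 𝕜 r hr0 hr1)) (hY : ¬ FiniteDimensional 𝕜 Y)
    {p C : ℝ} (P : Y → ℝ) (hp : IsPNorm 𝕜 p P) (hp0 : 0 < p)
    (hC : ∀ y : Y, P y ≤ C * nrm (y : Lor 𝕜 r hr0 hr1)) (m : ℕ) :
    ∃ y : Y, P y ^ p ≤ m * C ^ p ∧ ∃ l : List ℕ, l.Nodup ∧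
      (m : ℝ) / 2 ≤ F r ((y : Lor 𝕜 r hr0 hr1) : ℕ → 𝕜) 0 l := by
  classical
  induction m with
  | zero =>
    refine ⟨0, ?_, [], List.nodup_nil, by simp [F]⟩
    rw [(hp.quasi.eq_zero_iff 0).2 rfl, Real.zero_rpow hp0.ne']
    simp
  | succ m ih =>
    obtain ⟨y, hyP, l, hl, hlF⟩ := ih
    obtain ⟨A, hA⟩ := tail_small hr0 hr1 (y : Lor 𝕜 r hr0 hr1).2 (ε := 1 / 6) (by norm_num)
    set B := A ∪ l.toFinset with hB
    set K := l.length with hK
    obtain ⟨δ, hδ, hδK⟩ : ∃ δ : ℝ, 0 < δ ∧ δ ^ r * (K : ℝ) ^ r ≤ 1 / 6 := by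
      refine ⟨(1 / 6 / ((K : ℝ) ^ r + 1)) ^ (1 / r), by positivity, ?_⟩
      rw [← Real.rpow_mul (by positivity), one_div r, inv_mul_cancel₀ hr0.ne', Real.rpow_one]
      have : (0 : ℝ) ≤ (K : ℝ) ^ r := by positivity
      rw [div_mul_eq_mul_div, div_le_iff₀ (by positivity)]
      nlinarith
    obtain ⟨z, hzY, hzB, hz1, hz⟩ := exists_flat Y hY B hδ
    have hpwz : pw r (z : ℕ → 𝕜) = 1 := by
      rw [← nrm_rpow, hz1, Real.one_rpow]
    obtain ⟨⟨l1, hl1⟩, h1⟩ := exists_lt_of_lt_ciSup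
      (show 1 - 1 / 6 < ⨆ l : NL, F r (z : ℕ → 𝕜) 0 l.1 by
        have : (⨆ l : NL, F r (z : ℕ → 𝕜) 0 l.1) = 1 := hpwz
        rw [this]; norm_num)
    simp only at h1
    set l2 := l1.filter (fun x => decide (x ∉ B)) with hl2
    have hl2B : ∀ x ∈ l2, x ∉ B := by
      intro x hx
      have := (List.mem_filter.1 hx).2
      simpa using this
    have h2 : F r (z : ℕ → 𝕜) 0 l1 ≤ F r (z : ℕ → 𝕜) 0 l2 := by
      refine F_filter hr0 hr1 _ _ 0 ?_
      intro x _ hx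
      have : x ∈ B := by simpa using hx
      exact hzB x this
    have h3 : F r (z : ℕ → 𝕜) 0 l2 ≤ F r (z : ℕ → 𝕜) K l2 + δ ^ r * (K : ℝ) ^ r :=
      F_flat' hr0 hr1 _ K hδ.le fun x _ => hz x
    have h4 : F r (z : ℕ → 𝕜) K l2 ≤ F r ((y : Lor 𝕜 r hr0 hr1) + z : ℕ → 𝕜) K l2
        + F r ((y : Lor 𝕜 r hr0 hr1) : ℕ → 𝕜) K l2 := by
      have e : (z : ℕ → 𝕜) = ((y : Lor 𝕜 r hr0 hr1) + z : ℕ → 𝕜)
          + (-1 : 𝕜) • ((y : Lor 𝕜 r hr0 hr1) : ℕ → 𝕜) := by ext x; simp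
      have h5 := F_add_le hr0 hr1 ((y : Lor 𝕜 r hr0 hr1) + z : ℕ → 𝕜)
        ((-1 : 𝕜) • ((y : Lor 𝕜 r hr0 hr1) : ℕ → 𝕜)) K l2
      rw [← e, F_smul, norm_neg, norm_one, Real.one_rpow, one_mul] at h5
      exact h5
    have h5 : F r ((y : Lor 𝕜 r hr0 hr1) : ℕ → 𝕜) K l2 ≤ 1 / 6 := by
      have e1 : F r ((y : Lor 𝕜 r hr0 hr1) : ℕ → 𝕜) K l2
          = F r (cut B ((y : Lor 𝕜 r hr0 hr1) : ℕ → 𝕜)) K l2 :=
        F_congr K fun x hx => by simp [cut, hl2B x hx]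
      rw [e1]
      exact (F_mono_shift hr0 hr1 _ (Nat.zero_le K) l2).trans
        (hA B Finset.subset_union_left l2 (hl1.filter _))
    have h6 : F r ((y : Lor 𝕜 r hr0 hr1) + z : ℕ → 𝕜) 0 l
        = F r ((y : Lor 𝕜 r hr0 hr1) : ℕ → 𝕜) 0 l :=
      F_congr 0 fun x hx => by
        rw [Pi.add_apply, hzB x (by simp [hB, hx]), add_zero]
    refine ⟨y + ⟨z, hzY⟩, ?_, l ++ l2, ?_, ?_⟩
    · have h7 := hp.p_add y ⟨z, hzY⟩
      have h8 : P ⟨z, hzY⟩ ^ p ≤ C ^ p := by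
        refine Real.rpow_le_rpow (hp.quasi.nonneg _) ?_ hp0.le
        have := hC ⟨z, hzY⟩
        simp only [hz1, mul_one] at this
        exact this
      push_cast
      linarith
    · rw [List.nodup_append']
      refine ⟨hl, hl1.filter _, ?_⟩
      intro x hx hx'
      exact hl2B x hx' (by simp [hB, hx])
    · rw [F_append, zero_add, ← hK]
      have e : (((y + ⟨z, hzY⟩ : Y) : Lor 𝕜 r hr0 hr1) : ℕ → 𝕜)
          = ((y : Lor 𝕜 r hr0 hr1) + z : ℕ → 𝕜) := rfl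
      rw [e, h6]
      push_cast
      linarith

lemma not_hasEquivalentPNorm {p : ℝ} (hrp : r < p) (Y : Submodule 𝕜 (Lor 𝕜 r hr0 hr1))
    (hY : ¬ FiniteDimensional 𝕜 Y) :
    ¬ HasEquivalentPNorm 𝕜 (nrm : Lor 𝕜 r hr0 hr1 → ℝ) p Y := by
  rintro ⟨P, hP, C, hC1, hC⟩
  have hp0 : 0 < p := hr0.trans hrp
  have hC0 : 0 < C := by linarith
  have hs : 0 < p / r - 1 := by
    have := (one_lt_div hr0).2 hrp
    linarith
  have key : ∀ m : ℕ, ((m : ℝ) / 2) ^ (p / r) ≤ (C ^ p * C ^ p) * m := by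
    intro m
    obtain ⟨y, hyP, l, hl, hlF⟩ := exists_big Y hY P hP hp0 (fun y => (hC y).2) m
    have h1 : (m : ℝ) / 2 ≤ nrm (y : Lor 𝕜 r hr0 hr1) ^ r := by
      rw [nrm_rpow]
      exact hlF.trans (le_pw (y : Lor 𝕜 r hr0 hr1).2 hl)
    have h2 : ((m : ℝ) / 2) ^ (p / r) ≤ nrm (y : Lor 𝕜 r hr0 hr1) ^ p := by
      have h3 := Real.rpow_le_rpow (by positivity) h1 (div_nonneg hp0.le hr0.le)
      rwa [← Real.rpow_mul (nrm_nonneg _), mul_div_cancel₀ _ hr0.ne'] at h3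
    have h3 : nrm (y : Lor 𝕜 r hr0 hr1) ≤ C * P y := by
      have := (hC y).1
      rwa [inv_mul_le_iff₀ hC0] at this
    have h4 : nrm (y : Lor 𝕜 r hr0 hr1) ^ p ≤ C ^ p * P y ^ p := by
      rw [← Real.mul_rpow hC0.le (hP.quasi.nonneg y)]
      exact Real.rpow_le_rpow (nrm_nonneg _) h3 hp0.le
    have h5 : C ^ p * P y ^ p ≤ C ^ p * (m * C ^ p) :=
      mul_le_mul_of_nonneg_left hyP (by positivity)
    nlinarith
  have hlim : Filter.Tendsto (fun m : ℕ => ((m : ℝ) / 2) ^ (p / r - 1)) Filter.atTop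
      Filter.atTop :=
    (tendsto_rpow_atTop hs).comp
      (tendsto_natCast_atTop_atTop.atTop_div_const (by norm_num : (0 : ℝ) < 2))
  obtain ⟨m, hm1, hm⟩ := ((Filter.eventually_ge_atTop 1).and
    (hlim.eventually (Filter.eventually_gt_atTop (2 * (C ^ p * C ^ p))))).exists
  have hm0 : (0 : ℝ) < (m : ℝ) / 2 := by
    have : (1 : ℝ) ≤ m := by exact_mod_cast hm1
    positivity
  have h1 := key m
  have h2 : ((m : ℝ) / 2) ^ (p / r) = ((m : ℝ) / 2) ^ (p / r - 1) * ((m : ℝ) / 2) := by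
    rw [← Real.rpow_add_one hm0.ne']
    congr 1
    ring
  rw [h2] at h1
  have h3 := mul_lt_mul_of_pos_right hm hm0
  linarith

end Norm

end Construction

/-- For every `0 < r < 1` there is an infinite-dimensional quasi-Banach space, whose quasi-norm is
an `r`-norm, with a bidemocratic basis, such that for every `p > r` no infinite-dimensional
subspace has an equivalent `p`-norm. -/
theorem result (𝕜 : Type u) [RCLike 𝕜] (r : ℝ) (hr0 : 0 < r) (hr1 : r < 1) :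
    ∃ (X : Type u) (_ : AddCommGroup X) (_ : Module 𝕜 X) (N : X → ℝ)
      (e : ℕ → X) (e' : ℕ → X →ₗ[𝕜] 𝕜),
      IsPNorm 𝕜 r N ∧ IsCompleteFor N ∧ ¬ FiniteDimensional 𝕜 X ∧
      IsBasis 𝕜 N e e' ∧ IsBidemocratic 𝕜 N e e' ∧
      ∀ p : ℝ, r < p → ∀ Y : Submodule 𝕜 X, ¬ FiniteDimensional 𝕜 Y →
        ¬ HasEquivalentPNorm 𝕜 N p Y := by
  refine ⟨Lor 𝕜 r hr0 hr1, inferInstance, inferInstance, nrm, ev, ev',
    ⟨isQuasiNorm_nrm, nrm_rpow_add⟩, isComplete_nrm, ?_, isBasis_ev, isBidemocratic_ev,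
    fun p hp Y hY => not_hasEquivalentPNorm hp Y hY⟩
  intro hfd
  have hli : LinearIndependent 𝕜 (ev : ℕ → Lor 𝕜 r hr0 hr1) := by
    rw [linearIndependent_iff']
    intro s g hg i hi
    have h1 := congrArg (ev' i) hg
    rw [map_sum, map_zero] at h1
    simpa [ev, Pi.single_apply, hi] using h1
  have h2 := hli.lt_aleph0_of_finiteDimensional
  simp at h2

end Pool.Agent.Results.MP_c4013e_an.NoPNormableSubspace
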